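import Pool.Agent.K6.H88.TC.Par6

/-!
# The parity of the rank of a positive proportion of all elliptic curves over `ℚ` over infinitely many
# Galois extensions of `ℚ` at once

Let `K / ℚ` be any finite Galois extension of 2-power degree in which `2` is unramified, and `N` a number.

For a finite set `S` of primes and an elliptic curve `E : y ^ 2 = x ^ 3 + A x + B` over `ℚ` let `C(E)` be the
class of all finite Galois extensions `M / ℚ` of 2-power degree in which `2` is unramified, in which all
`q ∈ S` split completely and in which a prime `q > N` is ramified only if `x ^ 3 + A x + B` has no zero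
modulo `q`. Call an integer `d` admissible if `d = 1` or `d = 2` modulo `4` and if all prime factors `q` of
`d` are at most `N` or such that `x ^ 3 + A x + B` has no zero modulo `q`.

Theorem. There are `S` and `c > 0` such that for all large `X` at least `c` times the number of
all elliptic curves `E / ℚ` of height at most `X` have the following properties. The field `K` is in the
class `C(E)`. Let `M` be ANY field in the class `C(E)` which is not cyclic over `ℚ`, `d`, `d'` ANY admissible
integers, and `L` ANY Galois extension of `ℚ` which contains the field `F = M(√(d d'))` and has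
odd degree over `F` (`d = d'`, `F = M` is allowed; there is no condition on the ramification
of `L / F`). Let `E ^ d` be the quadratic twist. Then

* `rank E ^ d (M) = 0` and `rank E ^ d (L)` is even;
* the parity statement `(-1) ^ rank E ^ d (L) = W(E ^ d / L)` holds: for every system of signs `w_v` at the
  finite places of `L` such that `w_v = 1` if `E ^ d` has good reduction at `v` and such
  that `w_v` depends only on the prime number below `v`, the product `W` of all `w_v` and of `-1` for
  each infinite place is `1`. The local root numbers of `E ^ d` have these two properties, because `E ^ d` is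
  defined over `ℚ` and `L / ℚ` is a Galois extension;
* if `f` is any analytic continuation of the Hasse-Weil `L`-function of `E ^ d / L` to a connected open set
  which contains `Re s > 3 / 2` and `s = 1`, as in the frozen statement of the problem, and if the
  completed function satisfies the functional equation with the sign `W`, then the order of `f` at `1`
  and the rank of `E ^ d (L)` have the same parity.

There are infinitely many fields `M` of this kind, also if only the extensions of `K` are counted, and if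
`K` is not cyclic, then `K` is one of them.

The proof. The finiteness of `E ^ d (M)` is the theorem of `MP_788af2_nt.AllTwoExtensions`, which is based on
the projects PQ and PV (helper922, in the starting files). From `E ^ d (M)` and `E ^ d' (M)` one gets
that `E ^ d (F)` is finite. If a group `H` of odd order acts on a lattice `Λ` without nonzero fixed
vectors, then `rank Λ = tr(1) = - ∑ tr(h)`, `h ≠ 1`, is even, because `tr(h) = tr(h⁻¹)` (there is an invariant
positive definite form) and `h ≠ h⁻¹`. This is applied to `Gal(L / F)` and `E ^ d (L)` modulo torsion.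

For the signs let `M` be not cyclic. Its Galois group is a 2-group and has two subgroups of index
two, so that `M` contains the square roots of two integers which are independent modulo squares.
One of the three products is positive, and an automorphism of `L` which changes the sign of its square
root gives an involution without fixed points of the set of the infinite places of `L` (two real
embeddings, or two pairs of complex embeddings, which have different values at the square root), so
that their number is even. Let `p` be a prime. If `p` is unramified in `M` or the ramification index of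
`p` in `L` is odd and `p ≠ 2`, then one of the three products is a square in `ℚ_p`: up to a square of `ℚ`
it is a square modulo `p` or `1` modulo `8`, and the same argument shows that the number of the places of `L`
over `p` is even, so that the product of their signs is `1`. In the other case `p` is odd and
ramified in `M`, `x ^ 3 + A x + B` has no zero modulo `p`, so that `E` has good reduction at `p`,
and `E ^ d` has good reduction at the places of `L` over `p`, because the valuation of `d` there is even. The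
last statement follows from the expansion of the completed function at `s = 1`.
-/

set_option autoImplicit false
set_option linter.all false

namespace Pool.Agent.Results.MP_413b36_nt.ParityOverGaloisExtensions

open Filter NumberField IsDedekindDomain
open scoped Classical

/-- The equation `y ^ 2 = x ^ 3 + A x + B` with integers `A`, `B` defines an elliptic curve, and
there is no prime `p` with `p ^ 4 ∣ A` and `p ^ 6 ∣ B`. -/
structure IsMinimal (A B : ℤ) : Prop where
  elliptic : 4 * A ^ 3 + 27 * B ^ 2 ≠ 0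
  minimal : ∀ p : ℕ, p.Prime → ¬ ((p : ℤ) ^ 4 ∣ A ∧ (p : ℤ) ^ 6 ∣ B)

/-- The height. -/
def height (p : ℤ × ℤ) : ℤ := max (4 * |p.1| ^ 3) (27 * p.2 ^ 2)

/-- The set of all elliptic curves over `ℚ` of height at most `X`. -/
def Curves (X : ℕ) : Set (ℤ × ℤ) := {p | IsMinimal p.1 p.2 ∧ height p ≤ X}

/-- The quadratic twist by `d` of the curve `y ^ 2 = x ^ 3 + A x + B`, `p = (A, B)`, over `M`: the curve
`y ^ 2 = x ^ 3 + A d ^ 2 x + B d ^ 3`. -/
def twist (M : Type) [Field M] (p : ℤ × ℤ) (d : ℤ) : WeierstrassCurve M :=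
  ⟨0, 0, 0, ((p.1 * d ^ 2 : ℤ) : M), ((p.2 * d ^ 3 : ℤ) : M)⟩

section signs

variable (M : Type) [Field M] [NumberField M] (E : WeierstrassCurve M)

/-- The curve `E` has good reduction at the finite place `v` of `M`: it has an equation with `v`-integral
coefficients the discriminant of which is a `v`-adic unit. -/
def GoodReduction (v : HeightOneSpectrum (𝓞 M)) : Prop :=
  ∃ C : WeierstrassCurve.VariableChange M,
    v.valuation M (C • E).a₁ ≤ 1 ∧ v.valuation M (C • E).a₂ ≤ 1 ∧ v.valuation M (C • E).a₃ ≤ 1 ∧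
    v.valuation M (C • E).a₄ ≤ 1 ∧ v.valuation M (C • E).a₆ ≤ 1 ∧ v.valuation M (C • E).Δ = 1

/-- A system of signs for the finite places of `M` with two properties of the local root numbers of an
elliptic curve which is defined over `ℚ`, where `M / ℚ` is a Galois extension: the sign is `1` at the
places of good reduction, and it depends only on the prime number below. -/
structure Signs (w : HeightOneSpectrum (𝓞 M) → ℤ) : Prop where
  sign : ∀ v, w v = 1 ∨ w v = -1
  good : ∀ v, GoodReduction M E v → w v = 1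
  below : ∀ v v' : HeightOneSpectrum (𝓞 M), v.asIdeal.comap (algebraMap ℤ (𝓞 M)) =
    v'.asIdeal.comap (algebraMap ℤ (𝓞 M)) → w v = w v'

/-- The product of all the signs, with the sign `-1` for each infinite place. -/
noncomputable def globalSign (w : HeightOneSpectrum (𝓞 M) → ℤ) : ℤ :=
  (-1) ^ Fintype.card (InfinitePlace M) * ∏ᶠ v, w v

/-- For every nonzero prime ideal `P` the equation `m P` is an integral equation of `E` which is minimal
at `P`. -/
def LocallyMinimal (m : {P : Ideal (𝓞 M) // P.IsPrime ∧ P ≠ ⊥} → WeierstrassCurve (𝓞 M)) : Prop :=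
  ∀ P, (∃ C : WeierstrassCurve.VariableChange M, C • E = (m P).map (algebraMap (𝓞 M) M)) ∧
    ∀ W : WeierstrassCurve (𝓞 M),
      (∃ C : WeierstrassCurve.VariableChange M, C • E = W.map (algebraMap (𝓞 M) M)) →
      ∀ n : ℕ, (m P).Δ ∈ P.1 ^ n → W.Δ ∈ P.1 ^ n

/-- The Euler product, as in the frozen statement. -/
noncomputable def eulerProduct (m : {P : Ideal (𝓞 M) // P.IsPrime ∧ P ≠ ⊥} → WeierstrassCurve (𝓞 M))
    (s : ℂ) : ℂ :=
  ∏' P : {P : Ideal (𝓞 M) // P.IsPrime ∧ P ≠ ⊥},
    (1 - ((Nat.card (𝓞 M ⧸ P.1) : ℂ)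
          - (Nat.card {xy : (𝓞 M ⧸ P.1) × (𝓞 M ⧸ P.1) //
              ((m P).map (Ideal.Quotient.mk P.1)).toAffine.Equation xy.1 xy.2} : ℂ))
        * (Nat.card (𝓞 M ⧸ P.1) : ℂ) ^ (-s)
      + (if (m P).Δ ∈ P.1 then 0 else (Nat.card (𝓞 M ⧸ P.1) : ℂ) ^ (1 - 2 * s)))⁻¹

/-- The function `f` is an analytic continuation of the Hasse-Weil `L`-function of `E` to the
connected open set `U`, which contains `1` and the half plane `Re s > 3 / 2`. -/
structure Continuation (U : Set ℂ) (f : ℂ → ℂ) : Prop where
  isOpen : IsOpen U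
  connected : IsConnected U
  one : (1 : ℂ) ∈ U
  half : {s : ℂ | 3 / 2 < s.re} ⊆ U
  analytic : AnalyticOnNhd ℂ f U
  euler : ∃ m : {P : Ideal (𝓞 M) // P.IsPrime ∧ P ≠ ⊥} → WeierstrassCurve (𝓞 M),
    LocallyMinimal M E m ∧ ∀ s : ℂ, 3 / 2 < s.re → f s = eulerProduct M m s

end signs

/-- The completed function `(2 (2 π) ^ (-s) Γ(s)) ^ n A ^ (s / 2) f(s)`. -/
noncomputable def completed (n : ℕ) (A : ℝ) (f : ℂ → ℂ) (s : ℂ) : ℂ :=
  (2 * (2 * Real.pi : ℂ) ^ (-s) * Complex.Gamma s) ^ n * (A : ℂ) ^ (s / 2) * f s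

/-- The functional equation with the sign `ε`, for some positive number `A` (in the
conjecture `A` is the norm of the conductor times the square of the discriminant of `M`). -/
def FunctionalEquation (n : ℕ) (U : Set ℂ) (f : ℂ → ℂ) (ε : ℤ) : Prop :=
  ∃ A : ℝ, 0 < A ∧ ∀ s ∈ U, 2 - s ∈ U → completed n A f s = ε * completed n A f (2 - s)

/-- The group of points of `E` over `M` is finitely generated and its rank is even. For every system of
signs `w` as above the product of all signs is `1`, and it is equal to `(-1) ^ rank E(M)`. If `f` is an analytic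
continuation of the `L`-function which satisfies the functional equation with this sign, then the
order of `f` at `1` is even, and the sum of the order and the rank is even. -/
structure Parity (M : Type) [Field M] [NumberField M] (E : WeierstrassCurve M) : Prop where
  fg : AddGroup.FG E.toAffine.Point
  even : Even (Module.finrank ℤ E.toAffine.Point)
  one : ∀ w, Signs M E w → globalSign M w = 1
  rank : ∀ w, Signs M E w → (-1 : ℤ) ^ Module.finrank ℤ E.toAffine.Point = globalSign M w
  order : ∀ w, Signs M E w → ∀ (U : Set ℂ) (f : ℂ → ℂ), Continuation M E U f →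
    FunctionalEquation (Module.finrank ℚ M) U f (globalSign M w) →
    Even (analyticOrderNatAt f 1) ∧
      Even (analyticOrderNatAt f 1 + Module.finrank ℤ E.toAffine.Point)

/-- The polynomial `X ^ 3 + A X + B`, `p = (A, B)`, has no zero modulo `q`. -/
def NoZero (p : ℤ × ℤ) (q : ℕ) : Prop := ∀ z : ℤ, ¬ (q : ℤ) ∣ z ^ 3 + p.1 * z + p.2

/-- The number `d` is `1` or `2` modulo `4` and all its prime factors `q` are at most `N` or
`X ^ 3 + A X + B` has no zero modulo `q`. -/
def Admissible (N : ℕ) (p : ℤ × ℤ) (d : ℤ) : Prop :=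
  (d % 4 = 1 ∨ d % 4 = 2) ∧ ∀ q : ℕ, q.Prime → (q : ℤ) ∣ d → q ≤ N ∨ NoZero p q

/-- The prime `q` is unramified in `M`. -/
def Unramified (M : Type) [Field M] [NumberField M] (q : ℕ) : Prop :=
  ∀ 𝔭 : Ideal (𝓞 M), 𝔭.IsPrime → (q : 𝓞 M) ∉ 𝔭 ^ 2

/-- The prime `q` splits completely in `M`: it is unramified, and every integer of `M` is congruent to an
element of `ℤ` modulo every prime over `q`. -/
def SplitsCompletely (M : Type) [Field M] [NumberField M] (q : ℕ) : Prop :=
  Unramified M q ∧ ∀ 𝔭 : Ideal (𝓞 M), 𝔭.IsPrime → (q : 𝓞 M) ∈ 𝔭 → ∀ x : 𝓞 M, ∃ n : ℤ, x - n ∈ 𝔭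

/-- The class of the Galois extensions `M / ℚ` of 2-power degree in which `2` is unramified, in which the
primes in `S` split completely and in which only such primes `q > N` are ramified modulo which
`X ^ 3 + A X + B` has no zero. -/
structure InClass (N : ℕ) (S : Finset ℕ) (p : ℤ × ℤ) (M : Type) [Field M] [NumberField M] :
    Prop where
  galois : IsGalois ℚ M
  degree : ∃ n : ℕ, Module.finrank ℚ M = 2 ^ n
  two : Unramified M 2
  split : ∀ q ∈ S, SplitsCompletely M q
  ramified : ∀ q : ℕ, q.Prime → ¬ Unramified M q → q ≤ N ∨ NoZero p q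

/-- The field `K` is in the class of the curve `p = (A, B)`. All the twists of the curve by admissible `d`
have only finitely many points over all fields `M` in the class. The parity statements hold for these
twists over all Galois extensions `L` of `ℚ` which have odd degree over `M(y)`, `y ^ 2 = d d'`, for a field
`M` in the class which is not cyclic over `ℚ` and an admissible `d'`. For infinitely many primes `q` there is
such an extension `M` of `K` which contains the square root of `q`. -/
structure Uniform (N : ℕ) (S : Finset ℕ) (K : Type) [Field K] [NumberField K] (p : ℤ × ℤ) :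
    Prop where
  given : InClass N S p K
  finite : ∀ (M : Type) [Field M] [NumberField M], InClass N S p M → ∀ d : ℤ, Admissible N p d →
    Finite (twist M p d).toAffine.Point
  parity : ∀ (M : Type) [Field M] [NumberField M], InClass N S p M → ¬ IsCyclic Gal(M/ℚ) →
    ∀ d d' : ℤ, Admissible N p d → Admissible N p d' →
    ∀ (L : Type) [Field L] [NumberField L] [IsGalois ℚ L] (j : M →ₐ[ℚ] L) (y : L),
      y ^ 2 = ((d * d' : ℤ) : L) →
      Odd (Module.finrank ↥(j.fieldRange ⊔ IntermediateField.adjoin ℚ {y}) L) →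
      Parity L (twist L p d)
  infinite : {q : ℕ | q.Prime ∧ ∃ (M : Type) (_ : Field M) (_ : NumberField M),
    InClass N S p M ∧ ¬ IsCyclic Gal(M/ℚ) ∧ Nonempty (K →+* M) ∧
      ∃ x : M, x ^ 2 = (q : M)}.Infinite

theorem crv_iff (X : ℕ) (p : ℤ × ℤ) : Pool.Agent.N922.PQ.Crv X p.1 p.2 ↔ p ∈ Curves X := by
  constructor
  · rintro ⟨h1, h2, h3, h4⟩
    exact ⟨⟨h1, h2⟩, max_le h3 h4⟩
  · rintro ⟨⟨h1, h2⟩, h3⟩
    exact ⟨h1, h2, (le_max_left _ _).trans h3, (le_max_right _ _).trans h3⟩

theorem nonempty {X : ℕ} (hX : 27 ≤ X) : ((1, 1) : ℤ × ℤ) ∈ Curves X := by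
  refine ⟨⟨by norm_num, ?_⟩, ?_⟩
  · rintro p hp ⟨h, -⟩
    have h1 : ((p : ℤ)) ∣ 1 := (dvd_pow_self (p : ℤ) (by norm_num)).trans h
    have h2 : p ∣ 1 := by exact_mod_cast h1
    exact hp.one_lt.ne' (Nat.dvd_one.1 h2)
  · have : height ((1, 1) : ℤ × ℤ) = 27 := by
      simp [height]
    rw [this]
    exact_mod_cast hX

open Pool.Agent.N922.PQ (Ov IsPr)
open Pool.Agent.K6.H88.TC

theorem unr_iff {M : Type} [Field M] [NumberField M] {q : ℕ} (hq : q ≠ 0) :
    Unramified M q ↔ Unr M (q : ℤ) := by
  have e : ∀ w : HeightOneSpectrum (𝓞 M), w.valuation M ((q : ℤ) : M) = w.intValuation (q : 𝓞 M) := by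
    intro w
    rw [← HeightOneSpectrum.valuation_of_algebraMap (K := M)]
    congr 1
    push_cast
    rfl
  constructor
  · intro h w hw
    rw [e]
    have h2 : (q : 𝓞 M) ∈ w.asIdeal := by
      have := hw
      unfold Ov at this
      simpa using this
    have h3 := h w.asIdeal w.isPrime
    have a1 : w.intValuation (q : 𝓞 M) ≤ WithZero.exp (-((1 : ℕ) : ℤ)) := by
      rw [HeightOneSpectrum.intValuation_le_pow_iff_mem, pow_one]
      exact h2
    have a2 : ¬ w.intValuation (q : 𝓞 M) ≤ WithZero.exp (-((2 : ℕ) : ℤ)) := by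
      rw [HeightOneSpectrum.intValuation_le_pow_iff_mem]
      exact h3
    have h0 : w.intValuation (q : 𝓞 M) ≠ 0 := by
      intro h0
      apply a2
      rw [h0]
      exact zero_le'
    rw [← WithZero.exp_log h0] at a1 a2 ⊢
    rw [WithZero.exp_le_exp] at a1 a2
    congr 1
    push_cast at a1 a2
    omega
  · intro h 𝔭 h𝔭 hq2
    have hne : 𝔭 ≠ ⊥ := by
      rintro rfl
      rw [Ideal.bot_pow (by norm_num), Ideal.mem_bot] at hq2
      exact hq (by exact_mod_cast hq2)
    let w : HeightOneSpectrum (𝓞 M) := ⟨𝔭, h𝔭, hne⟩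
    have hw : Ov (q : ℤ) w := by
      change ((q : ℤ) : 𝓞 M) ∈ 𝔭
      have := Ideal.pow_le_self (by norm_num : 2 ≠ 0) hq2
      simpa using this
    have h1 := h w hw
    rw [e] at h1
    have h2 : w.intValuation (q : 𝓞 M) ≤ WithZero.exp (-((2 : ℕ) : ℤ)) := by
      rw [HeightOneSpectrum.intValuation_le_pow_iff_mem]
      exact hq2
    rw [h1, WithZero.exp_le_exp] at h2
    norm_num at h2

theorem spl_iff {M : Type} [Field M] [NumberField M] {q : ℕ} (hq : q ≠ 0) :
    SplitsCompletely M q ↔ Spl M (q : ℤ) := by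
  constructor
  · rintro ⟨h1, h2⟩ w hw
    refine ⟨(unr_iff hq).1 h1 w hw, h2 w.asIdeal w.isPrime ?_⟩
    have := hw
    unfold Ov at this
    simpa using this
  · intro h
    refine ⟨(unr_iff hq).2 fun w hw => (h w hw).1, fun 𝔭 h𝔭 hq𝔭 => ?_⟩
    have hne : 𝔭 ≠ ⊥ := by
      rintro rfl
      rw [Ideal.mem_bot] at hq𝔭
      exact hq (by exact_mod_cast hq𝔭)
    refine (h ⟨𝔭, h𝔭, hne⟩ ?_).2
    change ((q : ℤ) : 𝓞 M) ∈ 𝔭
    simpa using hq𝔭

theorem cls_iff {N : ℕ} {S : Finset ℤ} (hS : ∀ Q ∈ S, IsPr Q) {p : ℤ × ℤ} {M : Type} [Field M]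
    [NumberField M] : InClass N (S.image Int.toNat) p M ↔ InCls N S p.1 p.2 M := by
  have hnat : ∀ P : ℤ, IsPr P → ∃ q : ℕ, P = q ∧ q.Prime := by
    intro P hP
    obtain ⟨q, rfl⟩ : ∃ q : ℕ, P = q := ⟨P.toNat, by have := hP.1; omega⟩
    exact ⟨q, rfl, Nat.prime_iff_prime_int.2 hP.2⟩
  constructor
  · rintro ⟨h1, h2, h3, h4, h5⟩
    refine ⟨h1, h2, by exact_mod_cast (unr_iff two_ne_zero).1 h3, fun Q hQ => ?_, fun P hP hu => ?_⟩
    · obtain ⟨q, rfl, hq⟩ := hnat Q (hS Q hQ)
      exact (spl_iff hq.ne_zero).1 (h4 q (Finset.mem_image.2 ⟨q, hQ, by simp⟩))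
    · obtain ⟨q, rfl, hq⟩ := hnat P hP
      rcases h5 q hq fun h => hu ((unr_iff hq.ne_zero).1 h) with h | h
      · left
        exact_mod_cast h
      · exact Or.inr h
  · rintro ⟨h1, h2, h3, h4, h5⟩
    refine ⟨h1, h2, (unr_iff two_ne_zero).2 (by exact_mod_cast h3), fun q hq => ?_,
      fun q hq hu => ?_⟩
    · obtain ⟨Q, hQ, rfl⟩ := Finset.mem_image.1 hq
      obtain ⟨r, rfl, hr⟩ := hnat Q (hS Q hQ)
      rw [Int.toNat_natCast]
      exact (spl_iff hr.ne_zero).2 (h4 _ hQ)
    · rcases h5 q ⟨by exact_mod_cast hq.pos, Nat.prime_iff_prime_int.1 hq⟩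
        fun h => hu ((unr_iff hq.ne_zero).2 h) with h | h
      · left
        exact_mod_cast h
      · exact Or.inr h

theorem adm_of {N : ℕ} {p : ℤ × ℤ} {d : ℤ} (h : Admissible N p d) :
    Pool.Agent.K6.H88.TW.Adm N p.1 p.2 d := by
  refine ⟨?_, fun P hP hPd => ?_⟩
  · rintro rfl
    rcases h.1 with h1 | h1 <;> norm_num at h1
  obtain ⟨q, rfl⟩ : ∃ q : ℕ, P = q := ⟨P.toNat, by have := hP.1; omega⟩
  have hq : q.Prime := Nat.prime_iff_prime_int.2 hP.2
  rcases h.2 q hq hPd with h1 | h1
  · left
    exact_mod_cast h1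
  · exact Or.inr h1

theorem ne_zero_of {N : ℕ} {p : ℤ × ℤ} {d : ℤ} (h : Admissible N p d) : d ≠ 0 := by
  rintro rfl
  rcases h.1 with h1 | h1 <;> norm_num at h1

theorem dsc_ne {p : ℤ × ℤ} (hp : 4 * p.1 ^ 3 + 27 * p.2 ^ 2 ≠ 0) (d : ℤ) (hd : d ≠ 0) :
    Pool.Agent.N922.PQ.dsc (p.1 * d ^ 2) (p.2 * d ^ 3) ≠ 0 := by
  have e : Pool.Agent.N922.PQ.dsc (p.1 * d ^ 2) (p.2 * d ^ 3) =
      d ^ 6 * (4 * p.1 ^ 3 + 27 * p.2 ^ 2) := by
    unfold Pool.Agent.N922.PQ.dsc
    ring
  rw [e]
  exact mul_ne_zero (pow_ne_zero _ hd) hp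

theorem parity_of {N : ℕ} {S : Finset ℤ} {M L : Type} [Field M] [NumberField M] [Field L]
    [NumberField L] [IsGalois ℚ L] {p : ℤ × ℤ} {d d' : ℤ}
    (hp : 4 * p.1 ^ 3 + 27 * p.2 ^ 2 ≠ 0) (hN : ∀ P : ℤ, IsPr P → P ≤ N → NZ p.1 p.2 P)
    (hd : d ≠ 0) (hd' : d' ≠ 0) (hM : InCls N S p.1 p.2 M) (hnc : ¬ IsCyclic Gal(M/ℚ))
    (h : GoodE M p.1 p.2 d) (h' : GoodE M p.1 p.2 d') (j : M →ₐ[ℚ] L) {y : L}
    (hy : y ^ 2 = ((d * d' : ℤ) : L))
    (hodd : Odd (Module.finrank ↥(j.fieldRange ⊔ IntermediateField.adjoin ℚ {y}) L)) :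
    Parity L (twist L p d) := by
  have hone : ∀ w, Signs L (twist L p d) w → globalSign L w = 1 := by
    intro w hw
    exact sign_L Pool.Agent.N922.PQ.parts2.p.sig hN hd hM hnc j.toRingHom w hw.sign hp
      (fun v hv => hw.good v hv) hw.below
  have hrk : Even (Module.finrank ℤ (twist L p d).toAffine.Point) :=
    even_rank_L j hd hd' hy (dsc_ne hp) (fin_tw h) (fin_tw h') hodd
  have hord : ∀ w, Signs L (twist L p d) w → ∀ (U : Set ℂ) (f : ℂ → ℂ),
      Continuation L (twist L p d) U f →
      FunctionalEquation (Module.finrank ℚ L) U f (globalSign L w) →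
      Even (analyticOrderNatAt f 1) := by
    intro w hw U f hf hfe
    obtain ⟨A, hA, hA2⟩ := hfe
    refine even_order hf.isOpen hf.one hf.analytic (n := Module.finrank ℚ L) hA ?_
    intro s hs hs2
    have h1 := hA2 s hs hs2
    rw [hone w hw, Int.cast_one, one_mul] at h1
    exact h1
  refine ⟨?_, hrk, hone, fun w hw => ?_, fun w hw U f hf hfe => ⟨hord w hw U f hf hfe, ?_⟩⟩
  · haveI := fg_EQ L (dsc_ne hp d hd)
    exact AddGroup.fg_of_surjective (f := (eqv (p.1 * d ^ 2) (p.2 * d ^ 3) L).toAddMonoidHom)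
      (eqv (p.1 * d ^ 2) (p.2 * d ^ 3) L).surjective
  · rw [hrk.neg_one_pow, hone w hw]
  · exact (hord w hw U f hf hfe).add hrk

/-- For every Galois extension `K / ℚ` of 2-power degree in which `2` is unramified and every `N` there
are a finite set `S` of primes and `c > 0` such that for all large `X` at least `c` times
the number of all elliptic curves `E` over `ℚ` of height at most `X` satisfy `Uniform`: the twists of
`E` by all admissible `d` have rank zero over ALL fields `M` in the class given by `E` and `S`, and the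
parity statements hold over the Galois extensions `L` of `ℚ` which have odd degree over such an
`M` which is not cyclic, or over `M(√(d d'))`; `K` is in this class. -/
theorem result (N : ℕ) (K : Type) [Field K] [NumberField K] [IsGalois ℚ K] (n : ℕ)
    (hn : Module.finrank ℚ K = 2 ^ n) (h2 : Unramified K 2) :
    (∀ X : ℕ, (Curves X).Finite) ∧
    ∃ S : Finset ℕ, (∀ q ∈ S, q.Prime ∧ SplitsCompletely K q) ∧
      ∃ c : ℝ, 0 < c ∧ ∀ᶠ X : ℕ in atTop,
        0 < (Curves X).ncard ∧
        c * ((Curves X).ncard : ℝ) ≤ (({p ∈ Curves X | Uniform N S K p}).ncard : ℝ) := by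
  have hset : ∀ X : ℕ, Curves X = {p : ℤ × ℤ | Pool.Agent.N922.PQ.Crv X p.1 p.2} := by
    intro X
    ext p
    exact (crv_iff X p).symm
  have hfin : ∀ X : ℕ, (Curves X).Finite := fun X => by
    rw [hset]
    exact Pool.Agent.N922.PQ.crv_fin X
  refine ⟨hfin, ?_⟩
  obtain ⟨S, hS, hKS, c, hc, X₀, h⟩ := mainD N K
  have hS' : ∀ Q ∈ S, IsPr Q := fun Q hQ => (hS Q hQ).1
  refine ⟨S.image Int.toNat, fun q hq => ?_, c, hc, ?_⟩
  · obtain ⟨Q, hQ, rfl⟩ := Finset.mem_image.1 hq
    obtain ⟨q, rfl⟩ : ∃ q : ℕ, Q = q := ⟨Q.toNat, by have := (hS' Q hQ).1; omega⟩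
    have hqp : q.Prime := Nat.prime_iff_prime_int.2 (hS' _ hQ).2
    rw [Int.toNat_natCast]
    exact ⟨hqp, (spl_iff hqp.ne_zero).2 (hKS _ hQ)⟩
  filter_upwards [eventually_ge_atTop (max X₀ 27)] with X hX
  refine ⟨(Set.ncard_pos (hfin X)).2 ⟨_, nonempty ((le_max_right _ _).trans hX)⟩, ?_⟩
  have h1 := (h X ((le_max_left _ _).trans hX)).2
  rw [← hset] at h1
  refine h1.trans ?_
  have h3 : {p : ℤ × ℤ | Pool.Agent.N922.PQ.Crv X p.1 p.2 ∧
      ((∀ P : ℤ, IsPr P → ¬ Unr K P → NZ p.1 p.2 P) ∧
        (∀ P : ℤ, IsPr P → P ≤ N → NZ p.1 p.2 P) ∧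
        (∀ t : ℚ, t ^ 3 + (p.1 : ℚ) * t + (p.2 : ℚ) ≠ 0) ∧
        ∀ (M : Type) [Field M] [NumberField M], InCls N S p.1 p.2 M →
          ∀ d : ℤ, (d % 4 = 1 ∨ d % 4 = 2) → Pool.Agent.K6.H88.TW.Adm N p.1 p.2 d →
            GoodE M p.1 p.2 d)} ⊆ {p ∈ Curves X | Uniform N (S.image Int.toNat) K p} := by
    rintro p ⟨hp, hK, hN, hirr, hall⟩
    have hKc : InCls N S p.1 p.2 K :=
      ⟨inferInstance, ⟨n, hn⟩, by exact_mod_cast (unr_iff two_ne_zero).1 h2, hKS,
        fun P hP hu => Or.inr (hK P hP hu)⟩
    refine ⟨(crv_iff X p).1 hp, (cls_iff hS').2 hKc, ?_, ?_, ?_⟩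
    · intro M _ _ hM d hd
      exact fin_tw (hall M ((cls_iff hS').1 hM) d hd.1 (adm_of hd))
    · intro M _ _ hM hnc d d' hd hd' L _ _ _ j y hy hodd
      have hM' := (cls_iff hS').1 hM
      exact parity_of hp.disc hN (ne_zero_of hd) (ne_zero_of hd') hM' hnc
        (hall M hM' d hd.1 (adm_of hd)) (hall M hM' d' hd'.1 (adm_of hd')) j hy hodd
    · refine (inf_noncyclic hp.disc hirr hS hKc).mono ?_
      rintro q ⟨hq, M, iF, iN, hM, hrest⟩
      exact ⟨hq, M, iF, iN, (cls_iff hS').2 hM, hrest⟩
  have h4 := Set.ncard_le_ncard h3 ((hfin X).subset fun p hp => hp.1)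
  exact_mod_cast h4

end Pool.Agent.Results.MP_413b36_nt.ParityOverGaloisExtensions
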